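import Pool.Agent.Lib.MP_0da313_nt.TC.M
import Pool.Agent.Lib.MP_0da313_nt.GC.B

set_option autoImplicit false

/-!
Project TC, section E (the analytic part): from the exponential sums of project GC (`GC/B.lean`) to the
interface `TC.R_EX` (`TC/Defs.lean`). `R_x` is the conclusion, `S_x` the statement to be proved (with the
results it uses as hypotheses).

`GC.HH w k t = (kapD w)⁻¹ U (dv t) (prs w) k` is the truncated sieve model, `TC.Lw w t = (kapD w)⁻¹ W (dv t) (prs w)`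
the rough model, `GC.tz y` the trapezoid (`1` for `|y - 1| ≤ 1/100`, `0` for `|y - 1| ≥ 1/50`), `GC.ES w k X d a θ` the
exponential sum of `(thP t - HH w k t) tz(t/X)` over the `t ≡ a` modulo `d`, `t ≤ 2X`. `F : CM.Fam ι D` is the family,
`F.L n l x = F.u l * x + F.v n l`, `F.v n l = F.b l * n + F.c l`. The blocks are `N < n ≤ N + N/κ` (`TC.Blk F κ`).
`U`, `W`, `E` (Lib/MP_0da313_nt/Combi.lean): `E ρ P i = ∑_{S ⊆ P, |S| = i} ∏_S ρ`, `U ρ P b = ∑_{i ≤ b} (-1)^i E ρ P i`,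
`W ρ P = ∏_P (1 - ρ)`, with the lemmas `bonferroni`, `W_le_U`, `U_le_W_add_E`, `E_le`.
-/

namespace Pool.Agent.TC.E

open Finset Filter Polynomial
open Pool.Agent.MP89da58 (kapD tri)
open Pool.Agent.CH (thP)
open Pool.Agent.CM (wd Fam)
open Pool.Agent.SP80 (ex)
open Pool.Agent.TC (Lw wN la4 sq Cq Er ErS Per Blk)
open Pool.Agent.GC (HH tz ES Pm prs dv)

/-! ### Tools -/

/-- The exponential sums for the moduli `U q`, with weights and uniformly in the class and in the phase. -/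
def R_bvU : Prop := ∀ A b U : ℕ, 1 ≤ U → ∃ K0 : ℕ, ∀ᶠ X : ℝ in atTop, ∀ w k : ℕ,
  Pm X (1 / 100) K0 w k → ∃ E : ℕ → ℝ, (∀ q, 0 ≤ E q) ∧
    (∀ (q a : ℕ) (θ : ℝ), 1 ≤ q → (q : ℝ) ≤ X ^ (1 / 100 : ℝ) → a.Coprime (U * q) →
      ‖ES w k X (U * q) a θ‖ ≤ E q) ∧
    ∑ q ∈ (Icc 1 ⌊X ^ (1 / 100 : ℝ)⌋₊).filter Squarefree, (b : ℝ) ^ q.primeFactors.card * E q
      ≤ X / (Real.log X) ^ A

/-- [TE bvU] (uses GC B un, GC M tr) Proof: as `GC.B.S_bv`, with the moduli `d = U q ≤ U X^(1/100) ≤ X^(1/50)` for large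
`X`: `E q` is the supremum of `‖ES w k X (U q) a θ‖` over the `a` coprime to `U q` and the real `θ` (for `1 ≤ q ≤ X^(1/100)`,
else `0`), at most `(X/(U q)) L^4` by `R_tr`. Choose `a`, `θ` for each `q` with `‖ES‖ ≥ E q/2`; the moduli `U q` are
distinct, so `R_un` (with `a d = 1` for the other `d`, `A' = 2A + b^2 + 6`) gives `∑ E q ≤ 2X/L^A'`. Cauchy:
`∑ b^ω(q) E q ≤ (∑ b^(2ω(q)) E q)^(1/2) (∑ E q)^(1/2)`, `∑ b^(2ω(q)) E q ≤ X L^4 ∑_{q ≤ X squarefree} (b^2)^ω(q)/q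
≤ X L^4 (1 + L)^(b^2)`. `K0` = the maximum of the one of `R_un` and `1` (`Pm` is monotone in `K0` for large `X`). -/
def S_bvU : Prop := GC.B.R_un → GC.M.R_tr → R_bvU

/-- The trilinear bound (Parseval). -/
def R_tri : Prop := ∀ (u0 u1 δ κ : ℤ) (S0 S1 Sn : Finset ℕ) (F0 F1 g : ℕ → ℝ) (T : ℝ),
  u0 ≠ 0 → δ ≠ 0 → (∀ α : ℝ, ‖∑ k ∈ S0, (F0 k : ℂ) * ex (α * k)‖ ≤ T) →
  |∑ n ∈ Sn, ∑ k0 ∈ S0, ∑ k1 ∈ S1,
      if u0 * (k1 : ℤ) - u1 * (k0 : ℤ) = δ * (n : ℤ) + κ then g n * (F0 k0 * F1 k1) else 0| ≤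
    T * Real.sqrt (∑ k ∈ S1, F1 k ^ 2) * Real.sqrt (∑ n ∈ Sn, g n ^ 2)

/-- [TE tri] Proof: let `H ≥ 1` be a natural number larger than all `|u0 k1 - u1 k0 - δ n - κ|`, `|u0 (k - k')|`
(`k, k' ∈ S1`), `|δ (n - n')|` (`n, n' ∈ Sn`). For an integer `m`: `(1/H) ∑_{j < H} ex(j m/H)` is `1` if `H ∣ m` and `0`
otherwise (geometric sum), so for `|m| < H` it is `[m = 0]`. Hence the sum is
`(1/H) ∑_{j<H} ex(-κ j/H) A(-u1 j/H) B(u0 j/H) C(-δ j/H)` with `A(α) = ∑ F0 k ex(α k)`, `B(α) = ∑_{S1} F1 k ex(α k)`,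
`C(α) = ∑_{Sn} g n ex(α n)`; its absolute value is at most `T (1/H) ∑ |B| |C| ≤ T ((1/H) ∑ |B|^2)^(1/2) ((1/H) ∑ |C|^2)^(1/2)`
(Cauchy), and `(1/H) ∑_j |B(u0 j/H)|^2 = ∑_{k,k'} F1 k F1 k' [H ∣ u0 (k - k')] = ∑ F1 k^2`, similarly for `C` (`δ ≠ 0`). -/
def S_tri : Prop := R_tri

/-- Location of the points. -/
def R_loc : Prop := ∀ (ι : Type) [Fintype ι] [DecidableEq ι] (D : ℕ) (F : Fam ι D) (κ : ℕ), Blk F κ →
  ∀ᶠ N : ℕ in atTop, ∀ n ∈ Ioc N (N + N / κ), ∀ (i j : Option ι) (x : ℤ),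
  sq F N j (F.L n j x).toNat ≠ 0 → 0 < x ∧ x < n ∧ 0 < F.L n i x ∧
    |(F.L n i x : ℝ) / (F.t i * N) - 1| ≤ 1 / 100

/-- [TE loc] (uses TC.M lob) Proof: `sq F N j m = thP m * wd (la4 F j) (F.t j * N) m`; if it is not zero for
`m = (L n j x).toNat` then `L n j x > 0` (`thP 0 = 0`) and the window is not zero. `TC.M.R_lob` with `l = j` gives
`0 < x < n` and the last claim for all forms, in particular `L n i x ≥ 0.99 t_i N > 0` (`t_i > 0` by `hth`, `hu`, `hhw`;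
`N ≥ 1`). -/
def S_loc : Prop := TC.M.R_lob → R_loc

/-- The number of the relevant classes. -/
def R_cq : Prop := ∀ (ι : Type) [Fintype ι] [DecidableEq ι] (D : ℕ) (F : Fam ι D), ∀ (n q : ℕ),
  F.N0 ≤ n → Squarefree q → ∀ i j : Option ι,
  ((Cq F n q i j).card : ℝ) ≤ (D : ℝ) ^ q.primeFactors.card

/-- [TE cq] Proof: the number of roots of `G n` modulo a prime `p` is at most `D` (degree `≤ D`, not identically zero
modulo `p` by `F.hloc`; see `card_roots_mod_le` and the proof of `CM.L.S_dns`). A class `c` modulo the squarefree `q` is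
determined by its classes modulo the `p ∣ q` (Chinese remainder theorem), each of which is a root modulo `p`:
`Cq` injects into the product of the root sets (compare `BV/Classes.lean`, `MT/T2.lean`). -/
def S_cq : Prop := R_cq

/-- Choice of the parameter `k` of the model. -/
def R_pm : Prop := ∀ (K0 B1 : ℕ) (t : ℝ), 0 < t → K0 + 1 ≤ B1 → ∀ᶠ N : ℕ in atTop, ∃ k : ℕ,
  Pm (t * N) (1 / 100) K0 (wN B1 N) k

/-- [TE pm] Proof: `X = t N`, `w = wN B1 N = ⌊(log N)^B1⌋₊`, `k = 2 ⌈K0 log log X⌉₊`. For large `N`: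
`w ≥ (log N)^B1 - 1 ≥ (log X)^K0` (`B1 ≥ K0 + 1`, `log X ≤ 2 log N`), `k` is even, `k ≥ K0 log log X`, and
`w^(k+1) ≤ exp(B1 log log N * (2 K0 log log X + 3)) ≤ X^(1/100)`. -/
def S_pm : Prop := R_pm

/-! ### The mean square -/

open Classical in
/-- The term with the model `HH` and the window `tz`. -/
noncomputable def tm {ι : Type} [Fintype ι] [DecidableEq ι] {D : ℕ} (F : Fam ι D) (N w k n : ℕ)
    (i j : Option ι) (x : ℤ) : ℝ :=
  (thP (F.L n i x).toNat - HH w k (F.L n i x).toNat) * tz ((F.L n i x).toNat / (F.t i * N)) *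
    sq F N j (F.L n j x).toNat

/-- A single modulus. -/
def R_sgl : Prop := ∀ (ι : Type) [Fintype ι] [DecidableEq ι] (D : ℕ) (F : Fam ι D), TC.Per F →
  ∀ (i j : Option ι), F.u i * F.b j ≠ F.u j * F.b i → ∀ (κ : ℕ), Blk F κ →
  ∃ C : ℝ, 0 ≤ C ∧ ∀ᶠ N : ℕ in atTop, ∀ (w k q : ℕ) (T : ℝ), Squarefree q →
  (q : ℝ) ≤ (N : ℝ) ^ (1 / 1000 : ℝ) → 0 ≤ T →
  (∀ (r : ℕ) (θ : ℝ), r.Coprime ((F.u i).natAbs * q) →
    ‖ES w k (F.t i * N) ((F.u i).natAbs * q) r θ‖ ≤ T) →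
  ∑ n ∈ Ioc N (N + N / κ), ∑ c ∈ Cq F n q i j,
      |∑ x ∈ (Ioo 0 n).filter (fun x : ℕ => x ≡ c [MOD q]), tm F N w k n i j x| ≤
    C * ((D : ℝ) ^ q.primeFactors.card * (N * Real.log N * T))

/-- [TE sgl] (uses tri, loc, cq) Proof: write `u0, b0, c0` for `u i, b i, c i` and `u1, b1, c1` for `u j, b j, c j`; `U = |u0|`,
`δ = u0 b1 - u1 b0 ≠ 0`, `κ' = u0 c1 - u1 c0`, `X = t_i N`, and `C2` a constant with `|L n j x| ≤ C2 N` for `0 < x < n ≤ 2N`.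
Group the `n` by their class `ν` modulo `U q`; fix a class which occurs and `c ∈ Cq F n q i j`: by `Per` and as `L n l c`
modulo `q` only depends on `n` modulo `q`, this is the same set for all these `n` (`n ≥ F.N0`). For `n ≡ ν` and an integer
`x ≡ c (q)`: `k0 = L n i x` is in the class `r0` of `L n i c` modulo `U q`, the same class for all the `n ≡ ν (U q)`; it is
coprime to `U` (`(u0, v n i) = 1`: `huv`) and to `q` (definition of `Cq`), so coprime to `U q`; `k1 = L n j x` is in the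
class `r1` of `L n j c` modulo `q`, and `u0 k1 - u1 k0 = δ n + κ'`. Conversely, if `k0 ≡ r0 (U q)` and
`u0 k1 - u1 k0 = δ n + κ'` then `x = (k0 - v n i)/u0` is an integer `≡ c (q)` with `L n i x = k0`, `L n j x = k1`. Nonzero
terms `tm` have `k0 ≥ 1` (`tz 0 = 0`), `k1 ≥ 1` (`thP 0 = 0`), `k0 ≤ 2X` (`tz`), and `0 < x < n` by `R_loc`, so `k1 ≤ C2 N`; and all
pairs with `tz ≠ 0`, `sq ≠ 0` come from such `x`. So the inner sum over `x` is
`∑_{k0 ∈ S0} ∑_{k1 ∈ S1} [u0 k1 - u1 k0 = δ n + κ'] F0 k0 * sq F N j k1` with `S0 = {1 ≤ k0 ≤ 2X, k0 ≡ r0 (U q)}`,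
`S1 = {1 ≤ k1 ≤ C2 N, k1 ≡ r1 (q)}`, `F0 k = (thP k - HH w k' k) tz(k/X)` (as in `ES`). `R_tri` with `g n` the sign of the
sum and `Sn` the `n ≡ ν` of the block: `∑_{n ≡ ν} |..| ≤ T ((C2 N/q + 1) log(C2 N)^2)^(1/2) (N/q + 1)^(1/2)
≤ C3 T N log N/q` (`0 ≤ sq F N j k1 ≤ log k1`; `q ≤ N`). There are `U q` classes `ν` and at most `D^ω(q)` classes `c`
(`R_cq`). (Write the sum over `n` as a sum over `ν ∈ range (U q)` of the sums over the `n ≡ ν`.) -/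
def S_sgl : Prop := R_tri → R_loc → R_cq → R_sgl

/-- The mean square. -/
def R_ms : Prop := ∀ (ι : Type) [Fintype ι] [DecidableEq ι] (D : ℕ) (F : Fam ι D), TC.Per F →
  ∀ (i j : Option ι), F.u i * F.b j ≠ F.u j * F.b i → ∀ (κ : ℕ), Blk F κ → ∀ (A b : ℕ),
  ∃ K0 : ℕ, ∀ᶠ N : ℕ in atTop, ∀ (w k : ℕ), Pm (F.t i * N) (1 / 100) K0 w k →
  (((Ioc N (N + N / κ)).filter (fun n => N / (Real.log N) ^ A <
    ∑ q ∈ (Icc 1 ⌊(N : ℝ) ^ (1 / 1000 : ℝ)⌋₊).filter Squarefree, (b : ℝ) ^ q.primeFactors.card *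
      ∑ c ∈ Cq F n q i j,
        |∑ x ∈ (Ioo 0 n).filter (fun x : ℕ => x ≡ c [MOD q]), tm F N w k n i j x|)).card : ℝ)
  ≤ N / (Real.log N) ^ A

/-- [TE ms] (uses bvU, sgl) Proof: `R_bvU` with `U = |u i|`, `b' = b D`, `A' = 2A + 3` at `X = t_i N` (`t_i > 0` by `hth`, `hu`,
`hhw`; `N^(1/1000) ≤ X^(1/100)`, `(1/2) log N ≤ log X ≤ 2 log N` for large `N`); `E` its function and `R_sgl` with `T = E q`
(`q ≥ 1` as it is squarefree): the sum over the `n` of the block of the sums over `q` is at most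
`∑_q b^ω(q) C D^ω(q) N log N E q ≤ C N log N * X/(log X)^A' ≤ C t_i 2^A' N^2 log N/(log N)^A'`. If more than
`N/(log N)^A` of the `n` were exceptional the sum would be more than `N^2/(log N)^(2A)`, a contradiction for large `N`. -/
def S_ms : Prop := R_bvU → R_sgl → R_ms

/-! ### The two models -/

/-- The difference of the two models, for every `n`. -/
def R_hl : Prop := ∀ (ι : Type) [Fintype ι] [DecidableEq ι] (D : ℕ) (F : Fam ι D) (i j : Option ι)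
  (κ : ℕ), Blk F κ → ∀ (A b : ℕ), ∃ K0 : ℕ, ∀ᶠ N : ℕ in atTop, ∀ (w k : ℕ),
  Pm (F.t i * N) (1 / 100) K0 w k → ∀ n ∈ Ioc N (N + N / κ),
  ∑ q ∈ (Icc 1 ⌊(N : ℝ) ^ (1 / 1000 : ℝ)⌋₊).filter Squarefree, (b : ℝ) ^ q.primeFactors.card *
      ∑ c ∈ Cq F n q i j, ∑ x ∈ (Ioo 0 n).filter (fun x : ℕ => x ≡ c [MOD q]),
        |HH w k (F.L n i x).toNat - Lw w (F.L n i x).toNat| * sq F N j (F.L n j x).toNat
    ≤ N / (Real.log N) ^ A

/-- [TE hl] (uses loc, cq, GC M tl) Proof: `L = log X`, `X = t_i N`. `Lw w t = (kapD w)⁻¹ W (dv t) (prs w)` (`W` of an indicator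
function), so by `W_le_U`, `U_le_W_add_E` (`k` even): `0 ≤ HH - Lw ≤ (kapD w)⁻¹ E (dv t) (prs w) (k+1)`, and
`E (dv t) (prs w) (k+1) = ∑_S [∏ S ∣ t]`, `S` the sets of `k + 1` primes `≤ w`. If `sq ≠ 0` then `t = L n i x > 0` (`R_loc`), and
`sq ≤ log(3 t_j N) ≤ 2 log N` (window). For `c ∈ Cq`, `m = ∏ S`: if `m ∣ L n i x` for some `x ≡ c (q)` then no prime `p ∈ S`
divides `q` (`L n i c` is coprime to `q`) or `u_i` (`huv`), so the `x ≡ c (q)` with `m ∣ L n i x` form one class modulo `q m`, at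
most `n/(q m) + 1` of them in `(0, n)`. `∑_S 1/m = E (1/p) (prs w) (k+1) = |U_{k+1} - U_k| ≤ 2 e^(-k/2)` by the first part of
`GC.M.R_tl` (`c = 1`, `P = prs w`, `j = k, k + 1`); the number of the `S` is at most `w^(k+1) ≤ X^(1/100)` (`S ↦ ∏ S` is
injective); `(kapD w)⁻¹ ≤ 1000 L`. By `R_cq` the total is at most
`1000 L * 2 log N * ∑_{q ≤ N^(1/1000)} (b D)^ω(q) ((2N/q) 2 e^(-k/2) + X^(1/100))`, with `∑ (b D)^ω(q)/q ≤ (1 + log N)^(b D)` over the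
squarefree `q`, `(b D)^ω(q) ≤ N^(1/10)` or simply `∑_{q ≤ Q} (b D)^ω(q) ≤ Q (1 + log N)^(b D)`, and
`e^(-k/2) ≤ (log X)^(-K0/2)`: choose `K0 ≥ 2 (A + b D + 4)` and at least the `K0` of `R_tl` (`Pm X (1/100) K0` implies
`Pm X (1/50) K0'` for `K0' ≤ K0` and large `X`). -/
def S_hl : Prop := R_loc → R_cq → GC.M.R_tl → R_hl

/-- [TE EX] (uses ms, hl, loc, pm) The interface `TC.R_EX`. Proof: `K0` = the maximum of the `K0` of `R_ms` and of `R_hl` (both for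
`A + 1`), `B0 = K0 + 1`. For `B1 ≥ B0` and large `N` let `k` be from `R_pm` (`t = t_i`) for this `K0`; then `Pm` also holds for the
smaller `K0` (`log X ≥ 1`, `log log X ≥ 0`). For `n` in the block and `x ∈ (0, n)`, with `m = (L n i x).toNat`:
`sq F N j (..) (thP m - Lw w m) = tm F N w k n i j x + (HH w k m - Lw w m) sq F N j (..)`, because `tz = 1` by `R_loc` if `sq ≠ 0`
(`|m/(t_i N) - 1| ≤ 1/100`). So `ErS F N w n b i j` is at most the sum in `R_ms` plus the sum in `R_hl`; the latter is at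
most `N/(log N)^(A+1)`. If `ErS > N/(log N)^A` then the sum in `R_ms` is more than `N/(log N)^(A+1)` (`2 ≤ log N`); the number
of these `n` is at most `N/(log N)^(A+1) ≤ N/(log N)^A`. -/
def S_EX : Prop := R_ms → R_hl → R_loc → R_pm → TC.R_EX

end Pool.Agent.TC.E
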