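import Pool.Agent.Lib.MP_0da313_nt.TC.P.lob
import Pool.Agent.Lib.MP_0da313_nt.TC.E.P.bvU
import Pool.Agent.Lib.MP_0da313_nt.TC.E.P.loc
import Pool.Agent.Lib.MP_0da313_nt.TC.E.P.cq
import Pool.Agent.Lib.MP_0da313_nt.TC.E.P.pm
import Pool.Agent.Lib.MP_0da313_nt.TC.E.P.sgl
import Pool.Agent.Lib.MP_0da313_nt.TC.E.P.ms
import Pool.Agent.Lib.MP_0da313_nt.TC.E.P.hl
import Pool.Agent.Lib.MP_0da313_nt.TC.E.P.EX

set_option autoImplicit false

/-!
Project TC, section E: assembly. The interface `TC.R_EX` from the three results `R_un`, `R_tr`, `R_tl` of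
project GC.
-/

namespace Pool.Agent.TC.E

theorem h_loc : R_loc := p_loc TC.M.p_lob

theorem h_sgl : R_sgl := te_sgl h_loc p_cq

theorem h_hl (h2 : GC.M.R_tl) : R_hl := p_hl h_loc p_cq h2

theorem h_ms (h1 : GC.B.R_un) (h3 : GC.M.R_tr) : R_ms := p_ms (p_bvU h1 h3) h_sgl

/-- The interface. -/
theorem h_EX (h1 : GC.B.R_un) (h2 : GC.M.R_tl) (h3 : GC.M.R_tr) : TC.R_EX :=
  p_EX (h_ms h1 h3) (h_hl h2) h_loc p_pm

end Pool.Agent.TC.E
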