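import Pool.Agent.Lib.MP_0da313_nt.GC.All
import Pool.Agent.Lib.MP_0da313_nt.TC.E.Main

set_option autoImplicit false

/-!
Project TC: the interface `TC.R_EX`, proved.
-/

namespace Pool.Agent.TC.E

/-- The interface. -/
theorem h_EX0 : TC.R_EX := h_EX GC.B.h_un GC.M.h_tl GC.M.h_tr

end Pool.Agent.TC.E
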