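import Pool.Agent.Lib.MP_0da313_nt.TC.Defs
import Pool.Agent.Lib.MP_8a4e59_co.Basic

set_option autoImplicit false

/-!
Project TC (two clusters of primes for almost all `n`), section E (analytic part): definitions for the
mean square over `n` (see `TC/E/M/*.lean`).
-/

namespace Pool.Agent.TC.E

open Finset Filter
open Pool.Agent.MP89da58 (kapD)
open Pool.Agent.CH (thP)
open Pool.Agent.CM (wd pS)
open Pool.Agent.APP (ee)

/-- The difference between `theta` and the rough model. -/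
noncomputable def dw (w k : ℕ) : ℝ := thP k - Lw w k

/-- The exponential sum over a residue class. -/
noncomputable def Se (f : ℕ → ℝ) (X : ℝ) (Q r : ℕ) (α : ℝ) : ℂ :=
  ∑ k ∈ (Icc 1 ⌊3 * X⌋₊).filter (fun k => k ≡ r [MOD Q]), (f k : ℂ) * ee (α * k)

/-- The frequency `α` is not within `R/X` of a fraction with denominator `Q^2 t`, `t ≤ R`. -/
def Far (X R : ℝ) (Q : ℕ) (α : ℝ) : Prop := ∀ (t : ℕ) (a : ℤ), 1 ≤ t → (t : ℝ) ≤ R →
  R / X < |α - a / ((Q : ℝ) ^ 2 * t)|

/-- Two linear forms `u x + (b n + c)`, not parallel as forms in `(x, n)`. -/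
structure Pair where
  u0 : ℤ
  b0 : ℤ
  c0 : ℤ
  u1 : ℤ
  b1 : ℤ
  c1 : ℤ
  hu0 : u0 ≠ 0
  hu1 : u1 ≠ 0
  hd : u0 * b1 - u1 * b0 ≠ 0

namespace Pair

/-- The first form. -/
def L0 (P : Pair) (n x : ℤ) : ℤ := P.u0 * x + (P.b0 * n + P.c0)

/-- The second form. -/
def L1 (P : Pair) (n x : ℤ) : ℤ := P.u1 * x + (P.b1 * n + P.c1)

/-- The term: `theta - model` with a window at the first form, the weight `G` at the second form. -/
noncomputable def tm (P : Pair) (lam X : ℝ) (w : ℕ) (G : ℕ → ℝ) (n x : ℤ) : ℝ :=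
  dw w (P.L0 n x).toNat * wd lam X (P.L0 n x).toNat * G (P.L1 n x).toNat

end Pair

/-- The classes `a` modulo `q` which occur for `n`, `N < n ≤ N'`: they only depend on `n` modulo `q`, there
are at most `K^ω(q)` of them, and both forms are coprime to `q` on them. -/
structure Cl (P : Pair) (K N N' : ℕ) (Rel : ℕ → ℕ → Finset ℕ) : Prop where
  per : ∀ q, Squarefree q → ∀ n ∈ Ioc N N', ∀ n' ∈ Ioc N N', n ≡ n' [MOD q] → Rel q n = Rel q n'
  card : ∀ q, Squarefree q → ∀ n ∈ Ioc N N', ((Rel q n).card : ℝ) ≤ (K : ℝ) ^ q.primeFactors.card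
  cop : ∀ q, Squarefree q → ∀ n ∈ Ioc N N', ∀ a ∈ Rel q n,
    IsCoprime (P.L0 n a) (q : ℤ) ∧ IsCoprime (P.L1 n a) (q : ℤ)

end Pool.Agent.TC.E
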